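import Pool.Agent.Q266.FD.Stm

/-! Project FD (helper266), job BLK. -/

set_option autoImplicit false

namespace Pool.Agent.Q198.FD

open Matrix Pool.Agent.Q266.FD

/-- the complex matrix -/
noncomputable def JC (V : ℕ → ℝ) (N : ℕ) : Matrix (Fin N) (Fin N) ℂ :=
  (J V N).map (fun y : ℝ => (y : ℂ))

/-- gluing two vectors -/
def gl (p q : ℕ) : ((Fin p → ℂ) × (Fin q → ℂ)) →ₗ[ℂ] (Fin (p + q) → ℂ) where
  toFun w := Fin.append w.1 w.2
  map_add' a b := by
    funext i
    refine Fin.addCases (fun j => ?_) (fun j => ?_) i <;> simp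
  map_smul' c a := by
    funext i
    refine Fin.addCases (fun j => ?_) (fun j => ?_) i <;> simp

lemma gl_inj (p q : ℕ) : Function.Injective (gl p q) := by
  intro a b h
  apply Prod.ext
  · funext j
    have := congrFun h (Fin.castAdd q j)
    simpa [gl] using this
  · funext j
    have := congrFun h (Fin.natAdd p j)
    simpa [gl] using this

lemma glue {p q : ℕ} (W1 : Submodule ℂ (Fin p → ℂ)) (W2 : Submodule ℂ (Fin q → ℂ)) :
    ∃ W : Submodule ℂ (Fin (p + q) → ℂ),
      Module.finrank ℂ W1 + Module.finrank ℂ W2 ≤ Module.finrank ℂ W + 1 ∧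
      ∀ v ∈ W, ∃ w1 ∈ W1, ∃ w2 ∈ W2, v = Fin.append w1 w2 ∧ ∀ j : Fin q, (j : ℕ) = 0 → w2 j = 0 := by
  classical
  -- the functional
  set φ : (W1 × W2) →ₗ[ℂ] ℂ :=
    { toFun := fun w => ∑ j : Fin q, if (j : ℕ) = 0 then (w.2 : Fin q → ℂ) j else 0
      map_add' := fun a b => by
        rw [← Finset.sum_add_distrib]
        apply Finset.sum_congr rfl
        intro j _
        split_ifs <;> simp
      map_smul' := fun c a => by
        simp only [RingHom.id_apply, smul_eq_mul]
        rw [Finset.mul_sum]
        apply Finset.sum_congr rfl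
        intro j _
        split_ifs <;> simp } with hφ
  set Λ : (W1 × W2) →ₗ[ℂ] (Fin (p + q) → ℂ) :=
    (gl p q) ∘ₗ (W1.subtype.prodMap W2.subtype) with hΛ
  have hΛinj : Function.Injective Λ := by
    intro a b h
    have h1 := gl_inj p q h
    have e1 : (a.1 : Fin p → ℂ) = b.1 := congrArg Prod.fst h1
    have e2 : (a.2 : Fin q → ℂ) = b.2 := congrArg Prod.snd h1
    exact Prod.ext (Subtype.ext e1) (Subtype.ext e2)
  have hKr : Module.finrank ℂ W1 + Module.finrank ℂ W2 ≤ Module.finrank ℂ (LinearMap.ker φ) + 1 := by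
    have h1 := LinearMap.finrank_range_add_finrank_ker φ
    rw [Module.finrank_prod] at h1
    have h2 : Module.finrank ℂ (LinearMap.range φ) ≤ 1 := by
      have := Submodule.finrank_le (LinearMap.range φ)
      rwa [Module.finrank_self] at this
    omega
  refine ⟨LinearMap.range (Λ ∘ₗ (LinearMap.ker φ).subtype), ?_, ?_⟩
  · rw [LinearMap.finrank_range_of_inj (show Function.Injective (Λ ∘ₗ (LinearMap.ker φ).subtype) from
      hΛinj.comp (Submodule.injective_subtype _))]
    exact hKr
  · rintro v ⟨w, rfl⟩
    refine ⟨_, w.1.1.2, _, w.1.2.2, rfl, ?_⟩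
    intro j hj
    have h1 : φ w.1 = 0 := w.2
    have h2 : φ w.1 = (w.1.2 : Fin q → ℂ) j := by
      show (∑ j : Fin q, if (j : ℕ) = 0 then (w.1.2 : Fin q → ℂ) j else 0) = _
      rw [Finset.sum_eq_single j]
      · rw [if_pos hj]
      · intro i _ hij
        rw [if_neg]
        intro hi
        exact hij (Fin.ext (hi.trans hj.symm))
      · intro h; exact absurd (Finset.mem_univ _) h
    rw [← h2, h1]

lemma norm_append {p q : ℕ} (w1 : Fin p → ℂ) (w2 : Fin q → ℂ) :
    (star (Fin.append w1 w2) ⬝ᵥ Fin.append w1 w2).re =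
      (star w1 ⬝ᵥ w1).re + (star w2 ⬝ᵥ w2).re := by
  unfold dotProduct
  rw [Fin.sum_univ_add, Complex.add_re]
  simp

lemma form_append {p q : ℕ} (V : ℕ → ℝ) (w1 : Fin p → ℂ) (w2 : Fin q → ℂ)
    (h0 : ∀ j : Fin q, (j : ℕ) = 0 → w2 j = 0) :
    (star (Fin.append w1 w2) ⬝ᵥ (JC V (p + q) *ᵥ Fin.append w1 w2)).re =
      (star w1 ⬝ᵥ (JC V p *ᵥ w1)).re + (star w2 ⬝ᵥ (JC (fun n => V (n + p)) q *ᵥ w2)).re := by
  have key : star (Fin.append w1 w2) ⬝ᵥ (JC V (p + q) *ᵥ Fin.append w1 w2) =
      star w1 ⬝ᵥ (JC V p *ᵥ w1) + star w2 ⬝ᵥ (JC (fun n => V (n + p)) q *ᵥ w2) := by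
    unfold dotProduct Matrix.mulVec dotProduct
    rw [Fin.sum_univ_add]
    congr 1
    · apply Finset.sum_congr rfl
      intro i _
      rw [Fin.sum_univ_add]
      simp only [Pi.star_apply, Fin.append_left, Fin.append_right]
      congr 1
      have e1 : ∑ j : Fin q, JC V (p + q) (Fin.castAdd q i) (Fin.natAdd p j) * w2 j = 0 := by
        apply Finset.sum_eq_zero
        intro j _
        by_cases hj : (j : ℕ) = 0
        · rw [h0 j hj, mul_zero]
        · have : JC V (p + q) (Fin.castAdd q i) (Fin.natAdd p j) = 0 := by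
            unfold JC Pool.Agent.Q266.FD.J
            have hi := i.2
            have n1 : Fin.castAdd q i ≠ Fin.natAdd p j := by
              intro h
              have := congrArg Fin.val h
              simp at this
              omega
            simp only [Matrix.map_apply]
            rw [if_neg n1, if_neg]
            · simp
            · simp only [Fin.val_castAdd, Fin.val_natAdd]
              omega
          rw [this, zero_mul]
      rw [e1, add_zero]
      apply Finset.sum_congr rfl
      intro j _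
      congr 1
      unfold JC Pool.Agent.Q266.FD.J
      simp only [Matrix.map_apply, Fin.val_castAdd]
      by_cases hij : i = j
      · subst hij; simp
      · rw [if_neg hij, if_neg]
        intro h
        apply hij
        exact Fin.castAdd_injective p q h
    · apply Finset.sum_congr rfl
      intro i _
      rw [Fin.sum_univ_add]
      simp only [Pi.star_apply, Fin.append_left, Fin.append_right]
      by_cases hi : (i : ℕ) = 0
      · rw [h0 i hi]; simp
      congr 1
      have e1 : ∑ j : Fin p, JC V (p + q) (Fin.natAdd p i) (Fin.castAdd q j) * w1 j = 0 := by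
        apply Finset.sum_eq_zero
        intro j _
        have : JC V (p + q) (Fin.natAdd p i) (Fin.castAdd q j) = 0 := by
          unfold JC Pool.Agent.Q266.FD.J
          have hj := j.2
          have n1 : Fin.natAdd p i ≠ Fin.castAdd q j := by
            intro h
            have := congrArg Fin.val h
            simp at this
            omega
          simp only [Matrix.map_apply]
          rw [if_neg n1, if_neg]
          · simp
          · simp only [Fin.val_castAdd, Fin.val_natAdd]
            omega
        rw [this, zero_mul]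
      rw [e1, zero_add]
      apply Finset.sum_congr rfl
      intro j _
      congr 1
      unfold JC Pool.Agent.Q266.FD.J
      simp only [Matrix.map_apply, Fin.val_natAdd]
      by_cases hij : i = j
      · subst hij; simp [add_comm]
      · rw [if_neg hij, if_neg]
        · congr 2
          apply propext
          omega
        · intro h
          apply hij
          exact Fin.natAdd_injective q p h
  rw [key, Complex.add_re]

theorem blk (hS : S_Sub) (hC : S_Cx) : S_Blk := by
  intro V p q x
  have e : ∀ (V : ℕ → ℝ) (N : ℕ), (JC V N).IsHermitian ∧ cnt V N x = cntH (JC V N) x :=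
    fun V N => hC V N x
  set V' : ℕ → ℝ := fun n => V (n + p) with hV'
  obtain ⟨a1, a2, a3, a4, a5⟩ := hS p (JC V p) (e V p).1 x
  obtain ⟨b1, b2, b3, b4, b5⟩ := hS q (JC V' q) (e V' q).1 x
  obtain ⟨c1, c2, c3, c4, c5⟩ := hS (p + q) (JC V (p + q)) (e V (p + q)).1 x
  rw [(e V p).2, (e V' q).2, (e V (p + q)).2]
  constructor
  · obtain ⟨W1, r1, f1⟩ := a3
    obtain ⟨W2, r2, f2⟩ := b3
    obtain ⟨W, r, f⟩ := glue W1 W2
    have h := c5 W (by
      intro v hv hv0
      obtain ⟨w1, m1, w2, m2, rfl, h0⟩ := f v hv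
      rw [norm_append, form_append V w1 w2 h0, mul_add]
      have g1 : x * (star w1 ⬝ᵥ w1).re ≤ (star w1 ⬝ᵥ (JC V p *ᵥ w1)).re := by
        by_cases h1 : w1 = 0
        · rw [h1]; simp
        · exact (f1 w1 m1 h1).le
      have g2 : x * (star w2 ⬝ᵥ w2).re ≤ (star w2 ⬝ᵥ (JC V' q *ᵥ w2)).re := by
        by_cases h1 : w2 = 0
        · rw [h1]; simp
        · exact (f2 w2 m2 h1).le
      by_cases h1 : w1 = 0
      · have h2 : w2 ≠ 0 := by
          intro h2
          apply hv0
          rw [h1, h2]
          funext i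
          refine Fin.addCases (fun j => ?_) (fun j => ?_) i <;> simp
        have := f2 w2 m2 h2
        linarith
      · have := f1 w1 m1 h1
        linarith)
    omega
  · obtain ⟨W1, r1, f1⟩ := a2
    obtain ⟨W2, r2, f2⟩ := b2
    obtain ⟨W, r, f⟩ := glue W1 W2
    have h := c4 W (by
      intro v hv
      obtain ⟨w1, m1, w2, m2, rfl, h0⟩ := f v hv
      rw [norm_append, form_append V w1 w2 h0, mul_add]
      exact add_le_add (f1 w1 m1) (f2 w2 m2))
    omega

end Pool.Agent.Q198.FD
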