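import Pool.Agent.Q266.FD.Stm

/-! Project FD (helper266), job CX. -/

set_option autoImplicit false

namespace Pool.Agent.Q198.FD

open Matrix Pool.Agent.Q266.FD

lemma J_symm (V : ℕ → ℝ) (N : ℕ) (i j : Fin N) :
    Pool.Agent.Q266.FD.J V N i j = Pool.Agent.Q266.FD.J V N j i := by
  unfold Pool.Agent.Q266.FD.J
  by_cases h : i = j
  · subst h; rfl
  · rw [if_neg h, if_neg (Ne.symm h)]
    congr 1
    exact propext or_comm

theorem cx : S_Cx := by
  intro V N x
  classical
  constructor
  · ext i j
    rw [Matrix.conjTranspose_apply, Matrix.map_apply, Matrix.map_apply, J_symm V N j i]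
    simp
  · have hR : (Pool.Agent.Q266.FD.J V N).IsHermitian := by
      ext i j
      rw [Matrix.conjTranspose_apply, J_symm V N j i]
      simp
    have h1 : ((Pool.Agent.Q266.FD.J V N).map (fun y : ℝ => (y : ℂ))).charpoly =
        (Pool.Agent.Q266.FD.J V N).charpoly.map Complex.ofRealHom :=
      Matrix.charpoly_map _ Complex.ofRealHom
    unfold cnt cntH
    rw [h1, Polynomial.Splits.roots_map_of_injective hR.splits_charpoly, Multiset.filter_map,
      Multiset.card_map]
    · rfl
    · exact Complex.ofReal_injective

end Pool.Agent.Q198.FD
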