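import Pool.Agent.Q266.FD.Wd
import Pool.Agent.Q247.FD.Qt

/-! Project FD (helper266), job EX: existence of the density of states measure. -/

set_option autoImplicit false

open MeasureTheory Filter Topology Set ProbabilityTheory
open scoped ENNReal NNReal

namespace Pool.Agent.Q198.FD

open Pool.Agent.Q266.FD Pool.Agent.W811.Dos Pool.Agent.W965.Stu Pool.Agent.W811.Stu
open Pool.Agent.W745.Fib

/-- ramp -/
noncomputable def rp (ε x y : ℝ) : ℝ := max 0 (min 1 ((x - y) / ε))

lemma rp_cont (ε x : ℝ) : Continuous (rp ε x) := by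
  unfold rp; fun_prop

lemma rp_nonneg (ε x y : ℝ) : 0 ≤ rp ε x y := le_max_left _ _
lemma rp_le_one (ε x y : ℝ) : rp ε x y ≤ 1 := max_le zero_le_one (min_le_left _ _)
lemma rp_one {ε x y : ℝ} (hε : 0 < ε) (h : y ≤ x - ε) : rp ε x y = 1 := by
  unfold rp
  have : 1 ≤ (x - y) / ε := by rw [le_div_iff₀ hε]; linarith
  rw [min_eq_left this, max_eq_right zero_le_one]
lemma rp_zero {ε x y : ℝ} (hε : 0 < ε) (h : x ≤ y) : rp ε x y = 0 := by
  unfold rp
  have : (x - y) / ε ≤ 0 := div_nonpos_of_nonpos_of_nonneg (by linarith) hε.le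
  exact max_eq_left ((min_le_right _ _).trans this)

lemma rp_int (μ : Measure ℝ) [IsProbabilityMeasure μ] (ε x : ℝ) : Integrable (rp ε x) μ := by
  refine Integrable.of_bound (C := 1) (rp_cont ε x).aestronglyMeasurable ?_
  filter_upwards with y
  rw [Real.norm_of_nonneg (rp_nonneg ε x y)]
  exact rp_le_one ε x y

lemma le_rp (μ : Measure ℝ) [IsProbabilityMeasure μ] {ε : ℝ} (hε : 0 < ε) (x : ℝ) :
    cdf μ (x - ε) ≤ ∫ y, rp ε x y ∂μ := by
  rw [cdf_eq_real, ← integral_indicator_one measurableSet_Iic]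
  apply integral_mono
  · exact (integrable_const (1 : ℝ)).indicator measurableSet_Iic
  · exact rp_int μ ε x
  · intro y
    by_cases h : y ∈ Iic (x - ε)
    · rw [indicator_of_mem h, rp_one hε h]; exact le_rfl
    · rw [indicator_of_notMem h]; exact rp_nonneg _ _ _

lemma rp_le (μ : Measure ℝ) [IsProbabilityMeasure μ] {ε : ℝ} (hε : 0 < ε) (x : ℝ) :
    ∫ y, rp ε x y ∂μ ≤ cdf μ x := by
  rw [cdf_eq_real, ← integral_indicator_one measurableSet_Iic]
  apply integral_mono
  · exact rp_int μ ε x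
  · exact (integrable_const (1 : ℝ)).indicator measurableSet_Iic
  · intro y
    by_cases h : y ∈ Iic x
    · rw [indicator_of_mem h]; exact rp_le_one _ _ _
    · rw [indicator_of_notMem h]
      exact (rp_zero hε (not_le.mp h).le).le

lemma av_rp_le (Z : Finset ℝ) {ε : ℝ} (hε : 0 < ε) (x : ℝ) :
    av Z (rp ε x) ≤ ((Z.filter (fun E => E ≤ x)).card : ℝ) / Z.card := by
  unfold av
  apply div_le_div_of_nonneg_right _ (Nat.cast_nonneg _)
  rw [Finset.card_filter, Nat.cast_sum]
  apply Finset.sum_le_sum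
  intro y _
  by_cases h : y ≤ x
  · rw [if_pos h]
    have := rp_le_one ε x y
    push_cast
    exact this
  · rw [if_neg h, rp_zero hε (not_le.mp h).le]
    simp

lemma le_av_rp (Z : Finset ℝ) {ε : ℝ} (hε : 0 < ε) (x : ℝ) :
    ((Z.filter (fun E => E ≤ x)).card : ℝ) / Z.card ≤ av Z (rp ε (x + ε)) := by
  unfold av
  apply div_le_div_of_nonneg_right _ (Nat.cast_nonneg _)
  rw [Finset.card_filter, Nat.cast_sum]
  apply Finset.sum_le_sum
  intro y _
  by_cases h : y ≤ x
  · rw [if_pos h, rp_one hε (by linarith)]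
    simp
  · rw [if_neg h]
    have := rp_nonneg ε (x + ε) y
    push_cast
    exact this

lemma fib_top : Tendsto Nat.fib atTop atTop := by
  refine tendsto_atTop_mono (f := fun n => n - 1) (fun n => ?_) (tendsto_sub_atTop_nat 1)
  have := Nat.le_fib_add_one n
  omega

theorem ex (hCv : S_Cv) (hT : S_Tw) (hW : S_Wd) : S_Ex := by
  intro lam hl
  choose L hL using hCv lam
  obtain ⟨μ, hdos, -, hlim⟩ := (Pool.Agent.W672.Dos.dos Pool.Agent.W247.Dos.tr
    Pool.Agent.W688.Dos.wl Pool.Agent.W688.Dos.zc tQf Pool.Agent.W247.Dos.lm) lam hl alpha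
    alpha_irr alpha_pos alpha_lt
  haveI := hdos.1
  have hat := tAt Pool.Agent.W335.Dos.na Pool.Agent.W688.Dos.zc lam hl alpha alpha_irr alpha_pos
    alpha_lt μ hdos.1 hlim
  refine ⟨μ, hdos.1, fun ω x => ?_⟩
  have hcdf := Pool.Agent.Q247.FD.cdf_continuous hat
  -- the zeros
  have hZ : ∀ k, 4 ≤ k → (zs lam (k - 1) (dig alpha)).card = Nat.fib k ∧
      ∀ E ∈ zs lam (k - 1) (dig alpha), tr lam k E = 0 := by
    intro k hk
    obtain ⟨h1, h2, -⟩ := Pool.Agent.W688.Dos.zc lam hl alpha alpha_irr alpha_pos alpha_lt (k - 1)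
      (by omega)
    constructor
    · rw [h2, dig_alpha, QQ_one]
      congr 1
      omega
    · intro E hE
      have h3 := (h1 E).mp hE
      rw [dig_alpha, Pool.Agent.W745.Fib.orb_y] at h3
      rwa [show k - 1 + 1 = k by omega] at h3
  have hcount : ∀ k, 4 ≤ k →
      |(((zs lam (k - 1) (dig alpha)).filter (fun E => E ≤ x)).card : ℝ) / Nat.fib k -
        (cnt (Vn lam 0) (Nat.fib k) x : ℝ) / Nat.fib k| ≤ 1 / Nat.fib k := by
    intro k hk
    obtain ⟨h1, h2⟩ := hZ k hk
    have hf : 3 ≤ Nat.fib k := by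
      have := Nat.fib_mono hk
      exact this
    obtain ⟨h3, h4⟩ := hT (V lam 0) (Nat.fib k) hf _ h1 (fun E hE => by
      rw [(hW lam).2 k (by omega) E, h2 E hE, mul_zero]) x
    have h3' : ((zs lam (k - 1) (dig alpha)).filter (fun E => E ≤ x)).card ≤
        cnt (Vn lam 0) (Nat.fib k) x + 1 := h3
    have h4' : cnt (Vn lam 0) (Nat.fib k) x ≤
        ((zs lam (k - 1) (dig alpha)).filter (fun E => E ≤ x)).card + 1 := h4
    have hf0 : (0 : ℝ) < Nat.fib k := by
      have : 0 < Nat.fib k := by omega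
      exact_mod_cast this
    rw [← sub_div, abs_div, abs_of_pos hf0]
    apply div_le_div_of_nonneg_right _ hf0.le
    rw [abs_le]
    constructor
    · have : (cnt (Vn lam 0) (Nat.fib k) x : ℝ) ≤
        (((zs lam (k - 1) (dig alpha)).filter (fun E => E ≤ x)).card : ℝ) + 1 := by
        exact_mod_cast h4'
      linarith
    · have : (((zs lam (k - 1) (dig alpha)).filter (fun E => E ≤ x)).card : ℝ) ≤
        (cnt (Vn lam 0) (Nat.fib k) x : ℝ) + 1 := by
        exact_mod_cast h3'
      linarith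
  have hsub : Tendsto (fun k => (cnt (Vn lam 0) (Nat.fib k) x : ℝ) / Nat.fib k) atTop
      (𝓝 (L x)) := (hL x 0).comp fib_top
  have hinv : Tendsto (fun k => (1 : ℝ) / Nat.fib k) atTop (𝓝 0) := by
    simp_rw [one_div]
    exact tendsto_inv_atTop_zero.comp (tendsto_natCast_atTop_atTop.comp fib_top)
  have hz : Tendsto (fun k => (((zs lam (k - 1) (dig alpha)).filter (fun E => E ≤ x)).card : ℝ) /
      Nat.fib k) atTop (𝓝 (L x)) := by
    have h1 : Tendsto (fun k => (((zs lam (k - 1) (dig alpha)).filter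
        (fun E => E ≤ x)).card : ℝ) / Nat.fib k -
        (cnt (Vn lam 0) (Nat.fib k) x : ℝ) / Nat.fib k) atTop (𝓝 0) := by
      apply squeeze_zero_norm' _ hinv
      filter_upwards [eventually_ge_atTop 4] with k hk
      exact hcount k hk
    have h2 := h1.add hsub
    rw [zero_add] at h2
    refine h2.congr fun k => ?_
    ring
  have hlim' : ∀ g : ℝ → ℝ, Continuous g →
      Tendsto (fun k => av (zs lam (k - 1) (dig alpha)) g) atTop (𝓝 (∫ y, g y ∂μ)) :=
    fun g hg => (hlim g hg).comp (tendsto_sub_atTop_nat 1)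
  have hlow : ∀ ε : ℝ, 0 < ε → cdf μ (x - ε) ≤ L x := by
    intro ε hε
    refine (le_rp μ hε x).trans ?_
    refine le_of_tendsto_of_tendsto (hlim' _ (rp_cont ε x)) hz ?_
    filter_upwards [eventually_ge_atTop 4] with k hk
    have := av_rp_le (zs lam (k - 1) (dig alpha)) hε x
    rwa [(hZ k hk).1] at this
  have hhigh : ∀ ε : ℝ, 0 < ε → L x ≤ cdf μ (x + ε) := by
    intro ε hε
    refine le_trans ?_ (rp_le μ hε (x + ε))
    refine le_of_tendsto_of_tendsto hz (hlim' _ (rp_cont ε (x + ε))) ?_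
    filter_upwards [eventually_ge_atTop 4] with k hk
    have := le_av_rp (zs lam (k - 1) (dig alpha)) hε x
    rwa [(hZ k hk).1] at this
  have key : L x = (μ (Iic x)).toReal := by
    have hF : (μ (Iic x)).toReal = cdf μ x := by rw [cdf_eq_real]; rfl
    rw [hF]
    apply le_antisymm
    · have h1 : Tendsto (fun ε : ℝ => cdf μ (x + ε)) (𝓝[>] 0) (𝓝 (cdf μ x)) := by
        have h2 : Tendsto (fun ε : ℝ => cdf μ (x + ε)) (𝓝 0) (𝓝 (cdf μ (x + 0))) :=
          (hcdf.comp (by fun_prop : Continuous fun ε : ℝ => x + ε)).tendsto 0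
        rw [add_zero] at h2
        exact h2.mono_left nhdsWithin_le_nhds
      refine ge_of_tendsto h1 ?_
      filter_upwards [self_mem_nhdsWithin] with ε hε
      exact hhigh ε hε
    · have h1 : Tendsto (fun ε : ℝ => cdf μ (x - ε)) (𝓝[>] 0) (𝓝 (cdf μ x)) := by
        have h2 : Tendsto (fun ε : ℝ => cdf μ (x - ε)) (𝓝 0) (𝓝 (cdf μ (x - 0))) :=
          (hcdf.comp (by fun_prop : Continuous fun ε : ℝ => x - ε)).tendsto 0
        rw [sub_zero] at h2
        exact h2.mono_left nhdsWithin_le_nhds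
      refine le_of_tendsto h1 ?_
      filter_upwards [self_mem_nhdsWithin] with ε hε
      exact hlow ε hε
  rw [← key]
  exact hL x ω

end Pool.Agent.Q198.FD
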