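import Pool.Agent.Q266.FD.Stm

/-! Project FD (helper266), job SUB. -/

set_option autoImplicit false

namespace Pool.Agent.Q198.FD

open Matrix Pool.Agent.Q266.FD

variable {n : ℕ}

/-- the change of coordinates followed by extension by zero -/
noncomputable def LL (U : Matrix (Fin n) (Fin n) ℂ) (S : Finset (Fin n)) :
    (S → ℂ) →ₗ[ℂ] (Fin n → ℂ) :=
  U.mulVecLin ∘ₗ Function.ExtendByZero.linearMap ℂ (Subtype.val : S → Fin n)

lemma LL_inj (U : Matrix (Fin n) (Fin n) ℂ) (hU : star U * U = 1) (S : Finset (Fin n)) :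
    Function.Injective (LL U S) := by
  unfold LL
  intro a b h
  simp only [LinearMap.comp_apply, Matrix.mulVecLin_apply] at h
  have h1 := congrArg (fun v => star U *ᵥ v) h
  simp only [Matrix.mulVec_mulVec, hU, Matrix.one_mulVec] at h1
  exact Function.extend_injective Subtype.val_injective (0 : Fin n → ℂ) h1

lemma LL_rank (U : Matrix (Fin n) (Fin n) ℂ) (hU : star U * U = 1) (S : Finset (Fin n)) :
    Module.finrank ℂ (LinearMap.range (LL U S)) = S.card := by
  rw [LinearMap.finrank_range_of_inj (LL_inj U hU S), Module.finrank_fintype_fun_eq_card,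
    Fintype.card_coe]

lemma LL_mem (U : Matrix (Fin n) (Fin n) ℂ) (S : Finset (Fin n)) {v : Fin n → ℂ}
    (hv : v ∈ LinearMap.range (LL U S)) : ∃ w : Fin n → ℂ, v = U *ᵥ w ∧ ∀ i ∉ S, w i = 0 := by
  obtain ⟨c, rfl⟩ := hv
  refine ⟨Function.extend (Subtype.val : S → Fin n) c 0, rfl, ?_⟩
  intro i hi
  rw [Function.extend_apply' _ _ _ (by rintro ⟨a, rfl⟩; exact hi a.2)]
  rfl

lemma form_eq (A U : Matrix (Fin n) (Fin n) ℂ) (d : Fin n → ℝ)
    (hA : star U * A * U = diagonal (fun i => (d i : ℂ))) (w : Fin n → ℂ) :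
    (star (U *ᵥ w) ⬝ᵥ (A *ᵥ (U *ᵥ w))).re = ∑ i, d i * Complex.normSq (w i) := by
  have h1 : star (U *ᵥ w) ⬝ᵥ (A *ᵥ (U *ᵥ w)) = star w ⬝ᵥ ((star U * A * U) *ᵥ w) := by
    rw [Matrix.star_mulVec, ← Matrix.dotProduct_mulVec, Matrix.mulVec_mulVec, Matrix.mulVec_mulVec]
    rfl
  rw [h1, hA]
  simp only [dotProduct, Matrix.mulVec_diagonal, Pi.star_apply, Complex.re_sum]
  apply Finset.sum_congr rfl
  intro i _
  have : star (w i) * ((d i : ℂ) * w i) = (d i : ℂ) * (star (w i) * w i) := by ring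
  rw [this]
  have h2 : star (w i) * w i = (Complex.normSq (w i) : ℂ) := by
    rw [Complex.normSq_eq_conj_mul_self]; rfl
  rw [h2, ← Complex.ofReal_mul, Complex.ofReal_re]

lemma norm_eq (U : Matrix (Fin n) (Fin n) ℂ) (hU : star U * U = 1) (w : Fin n → ℂ) :
    (star (U *ᵥ w) ⬝ᵥ (U *ᵥ w)).re = ∑ i, Complex.normSq (w i) := by
  have h := form_eq 1 U (fun _ => 1) (by rw [Matrix.mul_one, hU]; simp [Matrix.diagonal_one]) w
  rw [Matrix.one_mulVec] at h
  rw [h]
  simp

theorem sub : S_Sub := by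
  intro n A hA x
  classical
  set U : Matrix (Fin n) (Fin n) ℂ := (hA.eigenvectorUnitary : Matrix (Fin n) (Fin n) ℂ) with hUd
  have hU : star U * U = 1 := Unitary.coe_star_mul_self hA.eigenvectorUnitary
  have hdiag : star U * A * U = diagonal (fun i => ((hA.eigenvalues i : ℝ) : ℂ)) := by
    have := hA.conjStarAlgAut_star_eigenvectorUnitary
    rw [Unitary.conjStarAlgAut_star_apply] at this
    exact this
  set d := hA.eigenvalues with hd
  set S : Finset (Fin n) := Finset.univ.filter (fun i => d i ≤ x) with hS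
  have hc : cntH A x = S.card := by
    unfold cntH
    rw [hA.roots_charpoly_eq_eigenvalues, Multiset.filter_map, Multiset.card_map]
    rw [hS, Finset.card_def, Finset.filter_val]
    rfl
  have hScard : S.card ≤ n := by
    have := Finset.card_le_univ S
    rwa [Fintype.card_fin] at this
  have hSc : (Sᶜ).card = n - S.card := by rw [Finset.card_compl, Fintype.card_fin]
  have hlow : ∀ v ∈ LinearMap.range (LL U S),
      (star v ⬝ᵥ (A *ᵥ v)).re ≤ x * (star v ⬝ᵥ v).re := by
    intro v hv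
    obtain ⟨w, rfl, hw⟩ := LL_mem U S hv
    rw [form_eq A U d hdiag, norm_eq U hU, Finset.mul_sum]
    apply Finset.sum_le_sum
    intro i _
    by_cases hi : i ∈ S
    · have h1 : d i ≤ x := by rw [hS, Finset.mem_filter] at hi; exact hi.2
      exact mul_le_mul_of_nonneg_right h1 (Complex.normSq_nonneg _)
    · rw [hw i hi]; simp
  have hhigh : ∀ v ∈ LinearMap.range (LL U Sᶜ), v ≠ 0 →
      x * (star v ⬝ᵥ v).re < (star v ⬝ᵥ (A *ᵥ v)).re := by
    intro v hv hv0
    obtain ⟨w, rfl, hw⟩ := LL_mem U Sᶜ hv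
    rw [form_eq A U d hdiag, norm_eq U hU, Finset.mul_sum]
    have hw0 : ∃ i, w i ≠ 0 := by
      by_contra hcon
      push Not at hcon
      apply hv0
      have : w = 0 := funext hcon
      rw [this, Matrix.mulVec_zero]
    obtain ⟨i0, hi0⟩ := hw0
    have hgt : ∀ i, w i ≠ 0 → x < d i := by
      intro i hi
      by_contra hcon
      push Not at hcon
      apply hi
      apply hw
      rw [Finset.mem_compl, not_not, hS, Finset.mem_filter]
      exact ⟨Finset.mem_univ _, hcon⟩
    apply Finset.sum_lt_sum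
    · intro i _
      by_cases hi : w i = 0
      · rw [hi]; simp
      · exact mul_le_mul_of_nonneg_right (hgt i hi).le (Complex.normSq_nonneg _)
    · exact ⟨i0, Finset.mem_univ _, mul_lt_mul_of_pos_right (hgt i0 hi0)
        (Complex.normSq_pos.mpr hi0)⟩
  have hdisj : ∀ W W' : Submodule ℂ (Fin n → ℂ),
      (∀ v ∈ W, (star v ⬝ᵥ (A *ᵥ v)).re ≤ x * (star v ⬝ᵥ v).re) →
      (∀ v ∈ W', v ≠ 0 → x * (star v ⬝ᵥ v).re < (star v ⬝ᵥ (A *ᵥ v)).re) →
      Module.finrank ℂ W + Module.finrank ℂ W' ≤ n := by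
    intro W W' h1 h2
    have h3 : Disjoint W W' := by
      rw [Submodule.disjoint_def]
      intro v hv hv'
      by_contra h0
      have := h1 v hv
      have := h2 v hv' h0
      linarith
    have := Submodule.finrank_add_finrank_le_of_disjoint h3
    rwa [Module.finrank_fintype_fun_eq_card, Fintype.card_fin] at this
  refine ⟨by rw [hc]; exact hScard, ⟨_, by rw [LL_rank U hU S, hc], hlow⟩,
    ⟨_, by rw [LL_rank U hU Sᶜ, hSc, hc], hhigh⟩, ?_, ?_⟩
  · intro W hW
    have := hdisj W _ hW hhigh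
    rw [LL_rank U hU Sᶜ, hSc] at this
    rw [hc]
    omega
  · intro W hW
    have := hdisj _ W hlow hW
    rw [LL_rank U hU S] at this
    rw [hc]
    omega

end Pool.Agent.Q198.FD
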