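import Pool.Agent.Q266.FD.Stm
import Pool.Agent.H695R3.ST.Bloch

/-! Project FD (helper266), job TW: zeros of the discriminant and eigenvalues of the box. -/

set_option autoImplicit false

namespace Pool.Agent.Q198.FD

open Matrix Polynomial
open Pool.Agent.Q266.FD (cnt cntH S_Sub S_Cx S_Tw)
open Pool.Agent.H695R3.ST (D)

/-- comparison of two Hermitian forms that agree on a hyperplane -/
lemma cmp (hS : S_Sub) {n : ℕ} (A B : Matrix (Fin n) (Fin n) ℂ) (hA : A.IsHermitian)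
    (hB : B.IsHermitian) (i0 : Fin n)
    (h : ∀ v : Fin n → ℂ, v i0 = 0 →
      (star v ⬝ᵥ (A *ᵥ v)).re = (star v ⬝ᵥ (B *ᵥ v)).re) (x : ℝ) :
    cntH A x ≤ cntH B x + 1 := by
  obtain ⟨-, ⟨W, r, f⟩, -, -, -⟩ := hS n A hA x
  obtain ⟨-, -, -, g, -⟩ := hS n B hB x
  set φ : W →ₗ[ℂ] ℂ := (LinearMap.proj i0) ∘ₗ W.subtype with hφ
  have h1 : Module.finrank ℂ W ≤ Module.finrank ℂ (LinearMap.ker φ) + 1 := by
    have h1 := LinearMap.finrank_range_add_finrank_ker φ
    have h2 : Module.finrank ℂ (LinearMap.range φ) ≤ 1 := by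
      have := Submodule.finrank_le (LinearMap.range φ)
      rwa [Module.finrank_self] at this
    omega
  have h2 := g (LinearMap.range (W.subtype ∘ₗ (LinearMap.ker φ).subtype)) (by
    rintro v ⟨w, rfl⟩
    have h3 : (w.1 : Fin n → ℂ) i0 = 0 := w.2
    have h4 := f _ w.1.2
    rw [h _ h3] at h4
    exact h4)
  rw [LinearMap.finrank_range_of_inj
    (show Function.Injective (W.subtype ∘ₗ (LinearMap.ker φ).subtype) from
      (Submodule.injective_subtype _).comp (Submodule.injective_subtype _))] at h2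
  omega

/-- the complex matrix -/
noncomputable def JC' (V : ℕ → ℝ) (N : ℕ) : Matrix (Fin N) (Fin N) ℂ :=
  (Pool.Agent.Q266.FD.J V N).map (fun y : ℝ => (y : ℂ))

/-- the corners -/
noncomputable def KC (q : ℕ) : Matrix (Fin q) (Fin q) ℂ := fun i j =>
  if (i : ℕ) = 0 ∧ (j : ℕ) + 1 = q then -Complex.I
  else if (i : ℕ) + 1 = q ∧ (j : ℕ) = 0 then Complex.I else 0

lemma KC_herm {q : ℕ} (hq : 3 ≤ q) : (KC q).IsHermitian := by
  ext i j
  rw [Matrix.conjTranspose_apply]
  unfold KC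
  by_cases h1 : (i : ℕ) = 0 ∧ (j : ℕ) + 1 = q
  · have h2 : ¬ ((j : ℕ) = 0 ∧ (i : ℕ) + 1 = q) := by omega
    have h3 : (j : ℕ) + 1 = q ∧ (i : ℕ) = 0 := ⟨h1.2, h1.1⟩
    rw [if_neg h2, if_pos h3, if_pos h1]
    simp
  · by_cases h4 : (i : ℕ) + 1 = q ∧ (j : ℕ) = 0
    · have h5 : (j : ℕ) = 0 ∧ (i : ℕ) + 1 = q := ⟨h4.2, h4.1⟩
      rw [if_pos h5, if_neg h1, if_pos h4]
      simp
    · have h5 : ¬ ((j : ℕ) = 0 ∧ (i : ℕ) + 1 = q) := fun h => h4 ⟨h.2, h.1⟩
      have h6 : ¬ ((j : ℕ) + 1 = q ∧ (i : ℕ) = 0) := fun h => h1 ⟨h.2, h.1⟩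
      rw [if_neg h5, if_neg h6, if_neg h1, if_neg h4]
      simp

/-- sum against an indicator -/
lemma sum_ind {q : ℕ} (m : ℕ) (f : ℕ → ℂ) :
    ∑ k : Fin q, (if (k : ℕ) = m then f k else 0) = if m < q then f m else 0 := by
  by_cases h : m < q
  · rw [if_pos h, Finset.sum_eq_single (⟨m, h⟩ : Fin q)]
    · simp
    · intro k _ hk
      rw [if_neg]
      intro h1
      exact hk (Fin.ext h1)
    · intro h1; exact absurd (Finset.mem_univ _) h1
  · rw [if_neg h]
    apply Finset.sum_eq_zero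
    intro k _
    rw [if_neg]
    have := k.2
    omega

lemma JC_mulVec {q : ℕ} (V : ℕ → ℝ) (u : ℕ → ℂ) (j : Fin q) :
    (JC' V q *ᵥ fun k : Fin q => u ((k : ℕ) + 1)) j =
      (V j : ℂ) * u ((j : ℕ) + 1) + (if (j : ℕ) + 1 < q then u ((j : ℕ) + 2) else 0) +
        (if 0 < (j : ℕ) then u (j : ℕ) else 0) := by
  have h1 : ∀ k : Fin q, JC' V q j k * u ((k : ℕ) + 1) =
      (if (k : ℕ) = j then (V j : ℂ) * u ((k : ℕ) + 1) else 0) +
      (if (k : ℕ) = (j : ℕ) + 1 then u ((k : ℕ) + 1) else 0) +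
      (if (k : ℕ) = (j : ℕ) - 1 then (if 0 < (j : ℕ) then u ((k : ℕ) + 1) else 0) else 0) := by
    intro k
    unfold JC' Pool.Agent.Q266.FD.J
    rw [Matrix.map_apply]
    by_cases h1 : j = k
    · subst h1
      have a1 : ¬ ((j : ℕ) = (j : ℕ) + 1) := by omega
      have a2 : (if (j : ℕ) = (j : ℕ) - 1 then (if 0 < (j : ℕ) then u ((j : ℕ) + 1) else 0) else 0) = 0 := by
        by_cases h0 : 0 < (j : ℕ)
        · rw [if_neg (by omega)]
        · rw [if_neg h0, ite_self]
      rw [if_pos rfl, if_pos rfl, if_neg a1, a2]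
      ring
    · have a0 : ¬ ((k : ℕ) = j) := fun h => h1 (Fin.ext h.symm)
      rw [if_neg h1, if_neg a0]
      by_cases h2 : (j : ℕ) + 1 = k
      · have a1 : (k : ℕ) = (j : ℕ) + 1 := h2.symm
        rw [if_pos (Or.inl h2), if_pos a1, if_neg (by omega)]
        simp
      · have a1 : ¬ ((k : ℕ) = (j : ℕ) + 1) := by omega
        rw [if_neg a1]
        by_cases h3 : (k : ℕ) + 1 = j
        · rw [if_pos (Or.inr h3), if_pos (by omega : (k : ℕ) = (j : ℕ) - 1), if_pos (by omega)]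
          simp
        · rw [if_neg (by omega)]
          by_cases h4 : (k : ℕ) = (j : ℕ) - 1
          · rw [if_pos h4, if_neg (by omega)]
            simp
          · rw [if_neg h4]; simp
  unfold Matrix.mulVec dotProduct
  rw [Finset.sum_congr rfl fun k _ => h1 k, Finset.sum_add_distrib, Finset.sum_add_distrib,
    sum_ind (j : ℕ) (fun k => (V j : ℂ) * u (k + 1)), if_pos j.2,
    sum_ind ((j : ℕ) + 1) (fun k => u (k + 1)),
    sum_ind ((j : ℕ) - 1) (fun k => if 0 < (j : ℕ) then u (k + 1) else 0)]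
  congr 1
  have hj := j.2
  rw [if_pos (by omega : (j : ℕ) - 1 < q)]
  by_cases h0 : 0 < (j : ℕ)
  · rw [if_pos h0, if_pos h0]
    congr 1
    omega
  · rw [if_neg h0, if_neg h0]

lemma KC_mulVec {q : ℕ} (hq : 3 ≤ q) (u : ℕ → ℂ) (j : Fin q) :
    (KC q *ᵥ fun k : Fin q => u ((k : ℕ) + 1)) j =
      (if (j : ℕ) = 0 then -Complex.I * u q else 0) +
        (if (j : ℕ) + 1 = q then Complex.I * u 1 else 0) := by
  have h1 : ∀ k : Fin q, KC q j k * u ((k : ℕ) + 1) =
      (if (k : ℕ) = q - 1 then (if (j : ℕ) = 0 then -Complex.I * u ((k : ℕ) + 1) else 0) else 0) +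
      (if (k : ℕ) = 0 then (if (j : ℕ) + 1 = q then Complex.I * u ((k : ℕ) + 1) else 0) else 0) := by
    intro k
    unfold KC
    have hk := k.2
    by_cases h1 : (j : ℕ) = 0
    · have h2 : ¬ ((j : ℕ) + 1 = q) := by omega
      by_cases h3 : (k : ℕ) + 1 = q
      · rw [if_pos ⟨h1, h3⟩, if_pos (by omega : (k : ℕ) = q - 1), if_pos h1, if_neg h2, ite_self,
          add_zero]
      · rw [if_neg (fun h => h3 h.2), if_neg (fun h => h2 h.1), if_neg (by omega), if_neg h2,
          ite_self]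
        simp
    · rw [if_neg (fun h => h1 h.1), if_neg h1, ite_self, zero_add]
      by_cases h2 : (j : ℕ) + 1 = q
      · by_cases h3 : (k : ℕ) = 0
        · rw [if_pos ⟨h2, h3⟩, if_pos h3, if_pos h2]
        · rw [if_neg (fun h => h3 h.2), if_neg h3, zero_mul]
      · rw [if_neg (fun h => h2 h.1), if_neg h2, ite_self, zero_mul]
  unfold Matrix.mulVec dotProduct
  rw [Finset.sum_congr rfl fun k _ => h1 k, Finset.sum_add_distrib,
    sum_ind (q - 1) (fun k => if (j : ℕ) = 0 then -Complex.I * u (k + 1) else 0),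
    sum_ind 0 (fun k => if (j : ℕ) + 1 = q then Complex.I * u (k + 1) else 0),
    if_pos (show q - 1 < q by omega), if_pos (show 0 < q by omega)]
  rw [show q - 1 + 1 = q by omega]

/-- the twisted matrix -/
noncomputable def TC (V : ℕ → ℝ) (q : ℕ) : Matrix (Fin q) (Fin q) ℂ := JC' V q + KC q

lemma TC_root {q : ℕ} (hq : 3 ≤ q) (V : ℤ → ℝ) {E : ℝ} (hE : (D V 1 q).eval E = 0) :
    ((TC (fun n => V ((n : ℤ) + 1)) q).charpoly).IsRoot (E : ℂ) := by
  have h0 : aeval (E : ℂ) (D V 1 q) = 0 := by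
    have := Polynomial.aeval_algebraMap_apply ℂ E (D V 1 q)
    rw [Polynomial.coe_aeval_eq_eval] at this
    rw [show ((E : ℝ) : ℂ) = algebraMap ℝ ℂ E from rfl, this, hE, map_zero]
  obtain ⟨u, hu0, hu, huq, huq1⟩ := Pool.Agent.H695R3.ST.exists_bloch V 1 q E Complex.I
    (by rw [h0]; simp)
  set ψ : Fin q → ℂ := fun k => u ((k : ℕ) + 1) with hψ
  have hu0' : u 0 = -Complex.I * u q := by
    rw [huq]
    linear_combination (u 0) * Complex.I_mul_I
  have hψ0 : ψ ≠ 0 := by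
    intro h
    have h1 : u 1 = 0 := by
      have := congrFun h (⟨0, by omega⟩ : Fin q)
      simpa [hψ] using this
    have h2 : u q = 0 := by
      have := congrFun h (⟨q - 1, by omega⟩ : Fin q)
      simp only [hψ, Pi.zero_apply] at this
      rwa [show q - 1 + 1 = q by omega] at this
    rw [h2, mul_zero] at hu0'
    rcases hu0 with h3 | h3
    · exact h3 hu0'
    · exact h3 h1
  have hT : TC (fun n => V ((n : ℤ) + 1)) q *ᵥ ψ = (E : ℂ) • ψ := by
    funext j
    unfold TC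
    rw [Matrix.add_mulVec, Pi.add_apply, JC_mulVec, KC_mulVec hq, Pi.smul_apply, smul_eq_mul]
    simp only [hψ]
    have hj := j.2
    have hr := hu (j : ℕ)
    rw [show (1 : ℤ) + ((j : ℕ) : ℤ) = ((j : ℕ) : ℤ) + 1 by ring] at hr
    by_cases h1 : (j : ℕ) = 0
    · have h2 : (j : ℕ) + 1 < q := by omega
      have h3 : ¬ (0 < (j : ℕ)) := by omega
      have h4 : ¬ ((j : ℕ) + 1 = q) := by omega
      rw [if_pos h2, if_neg h3, if_pos h1, if_neg h4]
      have h5 : u (j : ℕ) = -Complex.I * u q := by rw [h1]; exact hu0'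
      rw [← h5]
      linear_combination hr
    · have h3 : (0 < (j : ℕ)) := by omega
      rw [if_pos h3, if_neg h1]
      by_cases h4 : (j : ℕ) + 1 = q
      · have h2 : ¬ ((j : ℕ) + 1 < q) := by omega
        rw [if_neg h2, if_pos h4, ← huq1]
        have h5 : u (q + 1) = u ((j : ℕ) + 2) := by congr 1; omega
        rw [h5]
        linear_combination hr
      · have h2 : (j : ℕ) + 1 < q := by omega
        rw [if_pos h2, if_neg h4]
        linear_combination hr
  rw [Polynomial.IsRoot, Matrix.eval_charpoly]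
  rw [← Matrix.exists_mulVec_eq_zero_iff]
  refine ⟨ψ, hψ0, ?_⟩
  rw [Matrix.sub_mulVec, hT]
  have : (Matrix.scalar (Fin q) (E : ℂ)) *ᵥ ψ = (E : ℂ) • ψ := by
    rw [Matrix.scalar_apply, ← Matrix.smul_one_eq_diagonal, Matrix.smul_mulVec, Matrix.one_mulVec]
  rw [this, sub_self]

lemma TC_cnt {q : ℕ} (hq : 3 ≤ q) (V : ℤ → ℝ) (Z : Finset ℝ) (hZ : Z.card = q)
    (hE : ∀ E ∈ Z, (D V 1 q).eval E = 0) (x : ℝ) :
    cntH (TC (fun n => V ((n : ℤ) + 1)) q) x = (Z.filter (fun E => E ≤ x)).card := by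
  classical
  set P := (TC (fun n => V ((n : ℤ) + 1)) q).charpoly with hP
  have hP0 : P ≠ 0 := (Matrix.charpoly_monic _).ne_zero
  have h1 : Z.val.map (fun y : ℝ => (y : ℂ)) ≤ P.roots := by
    rw [Multiset.le_iff_subset]
    · intro z hz
      rw [Multiset.mem_map] at hz
      obtain ⟨E, hEZ, rfl⟩ := hz
      rw [Polynomial.mem_roots hP0]
      exact TC_root hq V (hE E hEZ)
    · exact Z.nodup.map Complex.ofReal_injective
  have h2 : P.roots = Z.val.map (fun y : ℝ => (y : ℂ)) := by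
    symm
    apply Multiset.eq_of_le_of_card_le h1
    rw [Multiset.card_map]
    have h3 := Polynomial.card_roots' P
    rw [hP, Matrix.charpoly_natDegree_eq_dim, Fintype.card_fin, ← hP] at h3
    exact h3.trans (by rw [← hZ]; rfl)
  unfold cntH
  rw [← hP, h2, Multiset.filter_map, Multiset.card_map, Finset.card_def, Finset.filter_val]
  congr 1

theorem tw (hS : S_Sub) (hC : S_Cx) : S_Tw := by
  intro V q hq Z hZ hE x
  set V' : ℕ → ℝ := fun n => V ((n : ℤ) + 1) with hV'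
  obtain ⟨hJh, hJc⟩ := hC V' q x
  have hJh' : (JC' V' q).IsHermitian := hJh
  have hTh : (TC V' q).IsHermitian := hJh'.add (KC_herm hq)
  have hform : ∀ v : Fin q → ℂ, v ⟨0, by omega⟩ = 0 →
      (star v ⬝ᵥ (TC V' q *ᵥ v)).re = (star v ⬝ᵥ (JC' V' q *ᵥ v)).re := by
    intro v hv
    unfold TC
    rw [Matrix.add_mulVec, dotProduct_add, Complex.add_re]
    have h1 : star v ⬝ᵥ (KC q *ᵥ v) = 0 := by
      unfold dotProduct
      apply Finset.sum_eq_zero
      intro j _
      by_cases hj : (j : ℕ) = 0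
      · have : j = ⟨0, by omega⟩ := Fin.ext hj
        rw [Pi.star_apply, this, hv]; simp
      · have h2 : (KC q *ᵥ v) j = 0 := by
          unfold Matrix.mulVec dotProduct
          apply Finset.sum_eq_zero
          intro k _
          show KC q j k * v k = 0
          unfold KC
          rw [if_neg (fun h => hj h.1)]
          by_cases hk : (k : ℕ) = 0
          · have : k = ⟨0, by omega⟩ := Fin.ext hk
            rw [this, hv, mul_zero]
          · rw [if_neg (fun h => hk h.2), zero_mul]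
        rw [h2, mul_zero]
    rw [h1]; simp
  have c1 := cmp hS (TC V' q) (JC' V' q) hTh hJh' ⟨0, by omega⟩ hform x
  have c2 := cmp hS (JC' V' q) (TC V' q) hJh' hTh ⟨0, by omega⟩ (fun v hv => (hform v hv).symm) x
  rw [TC_cnt hq V Z hZ hE x] at c1 c2
  have hJc' : cnt V' q x = cntH (JC' V' q) x := hJc
  rw [hJc']
  exact ⟨c1, c2⟩

end Pool.Agent.Q198.FD
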